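import Mathlib

set_option autoImplicit false

/-! The dimension of a limsup set, from a bound for the number of cells of a grid that are hit. -/

namespace Pool.Agent.X33.MD

open Filter MeasureTheory Topology
open scoped ENNReal NNReal

/-- the cells of the grid of mesh `r` -/
def cell (r : ℝ) (k : ℤ) : Set ℝ := Set.Ico (k * r) ((k + 1) * r)

lemma cell_meas (r : ℝ) (k : ℤ) : MeasurableSet (cell r k) := measurableSet_Ico

lemma cell_disj (r : ℝ) (hr : 0 < r) : Pairwise (Function.onFun Disjoint (cell r)) := by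
  intro k l hkl
  rw [Function.onFun, Set.disjoint_left]
  rintro x ⟨h1, h2⟩ ⟨h3, h4⟩
  apply hkl
  have h5 : (k : ℝ) < l + 1 := lt_of_mul_lt_mul_right (h1.trans_lt h4) hr.le
  have h6 : (l : ℝ) < k + 1 := lt_of_mul_lt_mul_right (h3.trans_lt h2) hr.le
  have h7 : k < l + 1 := by exact_mod_cast h5
  have h8 : l < k + 1 := by exact_mod_cast h6
  omega

lemma mem_cell (r : ℝ) (hr : 0 < r) (x : ℝ) : x ∈ cell r ⌊x / r⌋ := by
  constructor
  · rw [← le_div_iff₀ hr]
    exact Int.floor_le _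
  · rw [← div_lt_iff₀ hr]
    exact Int.lt_floor_add_one _

lemma cell_dist (r : ℝ) (k : ℤ) (x y : ℝ) (hx : x ∈ cell r k) (hy : y ∈ cell r k) :
    |x - y| ≤ r := by
  obtain ⟨h1, h2⟩ := hx
  obtain ⟨h3, h4⟩ := hy
  rw [abs_le]
  constructor <;> nlinarith

lemma diam_cell (r : ℝ) (_hr : 0 ≤ r) (k : ℤ) : Metric.ediam (cell r k) = ENNReal.ofReal r := by
  rw [cell, Real.ediam_Ico]
  congr 1
  ring

lemma vol_cell (r : ℝ) (k : ℤ) : volume (cell r k) = ENNReal.ofReal r := by
  rw [cell, Real.volume_Ico]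
  congr 1
  ring

open Classical in
/-- the weight of the cells that are hit, from a mean value -/
lemma hits_bound (r : ℝ) (hr : 0 < r) (s t : ℝ) (ht : 0 < t) (U B : Set ℝ)
    (G : ℝ → ℝ) (hG0 : ∀ x, 0 ≤ G x) (hGi : Integrable G (volume.restrict U))
    (hU : ∀ k, (cell r k ∩ B).Nonempty → cell r k ⊆ U)
    (hG : ∀ k, (cell r k ∩ B).Nonempty → ∀ x ∈ cell r k, t ≤ G x) :
    ∑' k : ℤ, (if (cell r k ∩ B).Nonempty then ENNReal.ofReal (r ^ s) else 0) ≤
      ENNReal.ofReal (r ^ (s - 1) / t * ∫ x, G x ∂(volume.restrict U)) := by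
  have h1 : ∀ k : ℤ, (if (cell r k ∩ B).Nonempty then ENNReal.ofReal (r ^ s) else 0) ≤
      ENNReal.ofReal (r ^ (s - 1) / t) *
        ∫⁻ x in cell r k, ENNReal.ofReal (G x) ∂(volume.restrict U) := by
    intro k
    split_ifs with h
    · have h2 : ENNReal.ofReal (t * r) ≤
          ∫⁻ x in cell r k, ENNReal.ofReal (G x) ∂(volume.restrict U) := by
        calc ENNReal.ofReal (t * r) = ∫⁻ x in cell r k, ENNReal.ofReal t ∂volume := by
              rw [setLIntegral_const, vol_cell, ENNReal.ofReal_mul ht.le]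
          _ ≤ ∫⁻ x in cell r k, ENNReal.ofReal (G x) ∂volume := by
              apply setLIntegral_mono' (cell_meas r k)
              intro x hx
              exact ENNReal.ofReal_le_ofReal (hG k h x hx)
          _ = _ := by
              rw [Measure.restrict_restrict (cell_meas r k),
                Set.inter_eq_left.mpr (hU k h)]
      calc ENNReal.ofReal (r ^ s) = ENNReal.ofReal (r ^ (s - 1) / t) * ENNReal.ofReal (t * r) := by
            rw [← ENNReal.ofReal_mul (by positivity)]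
            congr 1
            rw [show s = (s - 1) + 1 by ring, Real.rpow_add hr, Real.rpow_one]
            rw [show s - 1 + 1 - 1 = s - 1 by ring]
            field_simp
        _ ≤ _ := by gcongr
    · exact zero_le
  calc ∑' k : ℤ, (if (cell r k ∩ B).Nonempty then ENNReal.ofReal (r ^ s) else 0) ≤
      ∑' k : ℤ, ENNReal.ofReal (r ^ (s - 1) / t) *
        ∫⁻ x in cell r k, ENNReal.ofReal (G x) ∂(volume.restrict U) := ENNReal.tsum_le_tsum h1
    _ = ENNReal.ofReal (r ^ (s - 1) / t) *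
        ∫⁻ x in ⋃ k, cell r k, ENNReal.ofReal (G x) ∂(volume.restrict U) := by
        rw [ENNReal.tsum_mul_left, lintegral_iUnion (cell_meas r) (cell_disj r hr)]
    _ ≤ ENNReal.ofReal (r ^ (s - 1) / t) *
        ∫⁻ x, ENNReal.ofReal (G x) ∂(volume.restrict U) := by
        exact mul_le_mul' le_rfl (setLIntegral_le_lintegral _ _)
    _ = _ := by
        rw [← ofReal_integral_eq_lintegral_ofReal hGi (Eventually.of_forall hG0),
          ENNReal.ofReal_mul (by positivity)]

open Classical in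
/-- the dimension of a limsup set -/
theorem dim_limsup (s : ℝ) (hs : 0 < s) (B : ℕ → Set ℝ) (r : ℕ → ℝ) (hr : ∀ j, 0 < r j)
    (hr0 : Tendsto r atTop (𝓝 0)) (c x : ℝ) (hc : 0 ≤ c) (hx0 : 0 ≤ x) (hx1 : x < 1)
    (hb : ∀ᶠ j in atTop, ∑' k : ℤ, (if (cell (r j) k ∩ B j).Nonempty then
      ENNReal.ofReal (r j ^ s) else 0) ≤ ENNReal.ofReal (c * x ^ j)) :
    dimH {α | ∃ᶠ j in atTop, α ∈ B j} ≤ ENNReal.ofReal s := by
  obtain ⟨j₀, hj₀⟩ := eventually_atTop.mp hb
  set A : Set ℝ := {α | ∃ᶠ j in atTop, α ∈ B j} with hA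
  set t : (J : ℕ) → ℕ × ℤ → Set ℝ := fun J p =>
    if (cell (r (p.1 + j₀ + J)) p.2 ∩ B (p.1 + j₀ + J)).Nonempty then
      cell (r (p.1 + j₀ + J)) p.2 else ∅ with ht
  set u : ℕ → ℝ≥0∞ := fun i => ∑' k : ℤ, (if (cell (r (i + j₀)) k ∩ B (i + j₀)).Nonempty then
      ENNReal.ofReal (r (i + j₀) ^ s) else 0) with hu
  have husum : ∑' i, u i ≠ ⊤ := by
    have h1 : ∀ i, u i ≤ ENNReal.ofReal (c * x ^ (i + j₀)) := fun i => hj₀ (i + j₀) (by omega)
    have h3 : Summable fun i : ℕ => c * x ^ (i + j₀) := by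
      have h4 : Summable fun i : ℕ => (c * x ^ j₀) * x ^ i :=
        (summable_geometric_of_lt_one hx0 hx1).mul_left _
      refine h4.congr fun i => ?_
      rw [pow_add]
      ring
    refine ne_top_of_le_ne_top ?_ (ENNReal.tsum_le_tsum h1)
    rw [← ENNReal.ofReal_tsum_of_nonneg (fun j => by positivity) h3]
    exact ENNReal.ofReal_ne_top
  have htail : Tendsto (fun J => ∑' i, u (i + J)) atTop (𝓝 0) :=
    ENNReal.tendsto_sum_nat_add u husum
  -- the mesh of the coverings
  have hmesh : Tendsto (fun J => ⨆ i, ENNReal.ofReal (r (i + j₀ + J))) atTop (𝓝 0) := by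
    rw [ENNReal.tendsto_nhds_zero]
    intro ε hε
    have h1 : Tendsto (fun j => ENNReal.ofReal (r j)) atTop (𝓝 0) := by
      have := ENNReal.tendsto_ofReal hr0
      simpa using this
    rw [ENNReal.tendsto_nhds_zero] at h1
    obtain ⟨j₁, hj₁⟩ := eventually_atTop.mp (h1 ε hε)
    filter_upwards [eventually_ge_atTop j₁] with J hJ
    exact iSup_le fun i => hj₁ _ (by omega)
  have hcover : ∀ J, A ⊆ ⋃ p, t J p := by
    intro J α hα
    rw [hA, Set.mem_ofPred_eq, frequently_atTop] at hα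
    obtain ⟨j, hj, hjα⟩ := hα (j₀ + J)
    rw [Set.mem_iUnion]
    refine ⟨(j - j₀ - J, ⌊α / r j⌋), ?_⟩
    have h1 : j - j₀ - J + j₀ + J = j := by omega
    have h2 : (cell (r j) ⌊α / r j⌋ ∩ B j).Nonempty := ⟨α, mem_cell _ (hr j) α, hjα⟩
    simp only [ht]
    rw [h1, if_pos h2]
    exact mem_cell _ (hr j) α
  have hdiam : ∀ J p, Metric.ediam (t J p) ≤ ⨆ i, ENNReal.ofReal (r (i + j₀ + J)) := by
    intro J p
    simp only [ht]
    split_ifs with h
    · rw [diam_cell _ (hr _).le]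
      exact le_iSup (fun i => ENNReal.ofReal (r (i + j₀ + J))) p.1
    · simp
  have hsum : ∀ J, ∑' p, Metric.ediam (t J p) ^ s = ∑' i, u (i + J) := by
    intro J
    rw [ENNReal.tsum_prod']
    refine tsum_congr fun i => ?_
    simp only [hu]
    refine tsum_congr fun k => ?_
    simp only [ht]
    rw [show i + J + j₀ = i + j₀ + J by omega]
    split_ifs with h
    · rw [diam_cell _ (hr _).le, ENNReal.ofReal_rpow_of_pos (hr _)]
    · rw [Metric.ediam_empty, ENNReal.zero_rpow_of_pos hs]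
  have hH : Measure.hausdorffMeasure s A = 0 := by
    have h1 := Measure.hausdorffMeasure_le_liminf_tsum s A _ hmesh t
      (Eventually.of_forall fun J p => hdiam J p) (Eventually.of_forall hcover)
    simp_rw [hsum] at h1
    rw [htail.liminf_eq] at h1
    exact le_antisymm h1 zero_le
  have hs' : ENNReal.ofReal s = ((Real.toNNReal s : ℝ≥0) : ℝ≥0∞) := rfl
  rw [hs']
  apply dimH_le_of_hausdorffMeasure_ne_top
  rw [Real.coe_toNNReal s hs.le, hH]
  exact ENNReal.zero_ne_top

end Pool.Agent.X33.MD
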