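import Pool.Agent.X33.MD.Mean
import Pool.Agent.X33.MD.Cover

set_option autoImplicit false

/-! The dimension of the set of parameters for which infinitely many blocks are bad. -/

namespace Pool.Agent.X33.MD

open Finset Filter MeasureTheory Topology
open Pool.Agent.TH668.Met
open Pool.Agent.H469R2.NK (e norm_e e_add conj_e)
open scoped ENNReal NNReal

lemma e_lip (x y : ℝ) : ‖e x - e y‖ ≤ 7 * |x - y| := by
  have h1 : e x - e y = e y * (e (x - y) - 1) := by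
    rw [mul_sub, ← e_add, mul_one]
    congr 2
    ring
  rw [h1, norm_mul, norm_e, one_mul]
  have h2 : e (x - y) = Complex.exp (Complex.I * ((2 * Real.pi * (x - y) : ℝ) : ℂ)) := by
    unfold e
    rw [mul_comm]
  rw [h2]
  refine (Real.norm_exp_I_mul_ofReal_sub_one_le).trans ?_
  rw [Real.norm_eq_abs, abs_mul, abs_of_pos (by have := Real.pi_pos; positivity)]
  have h3 : 2 * Real.pi ≤ 7 := by
    have := Real.pi_lt_d2
    linarith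
  exact mul_le_mul_of_nonneg_right h3 (abs_nonneg _)

/-- the exponential sum of a block -/
noncomputable def SS (a b : ℕ → ℝ) (N : ℕ) (θ α : ℝ) : ℂ :=
  ∑ n ∈ Finset.Ioc N (2 * N), e (θ * (α * a n + b n))

lemma SS_lip (a b : ℕ → ℝ) (N : ℕ) (A θ α α' : ℝ) (hθ : 0 ≤ θ)
    (hA : ∀ n ∈ Finset.Ioc N (2 * N), |a n| ≤ A) :
    ‖SS a b N θ α - SS a b N θ α'‖ ≤ N * (7 * (θ * (|α - α'| * A))) := by
  have hcard : ((Finset.Ioc N (2 * N)).card : ℝ) = N := by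
    rw [Nat.card_Ioc]
    congr 1
    omega
  unfold SS
  rw [← sum_sub_distrib]
  refine (norm_sum_le _ _).trans ?_
  have h1 : ∀ n ∈ Finset.Ioc N (2 * N),
      ‖e (θ * (α * a n + b n)) - e (θ * (α' * a n + b n))‖ ≤ 7 * (θ * (|α - α'| * A)) := by
    intro n hn
    refine (e_lip _ _).trans ?_
    have h2 : θ * (α * a n + b n) - θ * (α' * a n + b n) = θ * ((α - α') * a n) := by ring
    rw [h2, abs_mul, abs_mul, abs_of_nonneg hθ]
    have := hA n hn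
    gcongr
  refine (sum_le_sum h1).trans ?_
  rw [sum_const, nsmul_eq_mul, hcard]

lemma continuous_SS (a b : ℕ → ℝ) (N : ℕ) (θ : ℝ) : Continuous (SS a b N θ) := by
  unfold SS
  exact continuous_finsetSum _ fun n _ => continuous_e.comp (continuous_const.mul
    ((continuous_id.mul continuous_const).add continuous_const))

lemma norm_SS_le (a b : ℕ → ℝ) (N : ℕ) (θ α : ℝ) : ‖SS a b N θ α‖ ≤ N := by
  have hcard : ((Finset.Ioc N (2 * N)).card : ℝ) = N := by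
    rw [Nat.card_Ioc]
    congr 1
    omega
  unfold SS
  refine (norm_sum_le _ _).trans (le_of_eq ?_)
  simp only [norm_e]
  rw [sum_const, nsmul_eq_mul, mul_one, hcard]

lemma integrable_SS (μ : Measure ℝ) [IsFiniteMeasure μ] (a b : ℕ → ℝ) (N : ℕ) (θ : ℝ) :
    Integrable (fun α => ‖SS a b N θ α‖ ^ 2) μ := by
  refine Integrable.of_bound ((continuous_SS a b N θ).norm.pow 2).aestronglyMeasurable
    ((N : ℝ) ^ 2) (Eventually.of_forall fun α => ?_)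
  rw [norm_pow, norm_norm]
  exact pow_le_pow_left₀ (norm_nonneg _) (norm_SS_le a b N θ α) 2

/-- the sum of the squares of all exponential sums of a block -/
noncomputable def GG (η : ℝ) (a b : ℕ → ℝ) (N : ℕ) (α : ℝ) : ℝ :=
  ∑ q ∈ Finset.Icc 1 ⌊(N : ℝ) ^ η⌋₊, ∑ h ∈ Finset.Icc 1 ⌊(N : ℝ) ^ (4 * η)⌋₊,
    ‖SS a b N ((h : ℝ) / q) α‖ ^ 2

lemma GG_nonneg (η : ℝ) (a b : ℕ → ℝ) (N : ℕ) (α : ℝ) : 0 ≤ GG η a b N α :=
  sum_nonneg fun _ _ => sum_nonneg fun _ _ => by positivity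

lemma le_GG (η : ℝ) (a b : ℕ → ℝ) (N q h : ℕ) (hq : 1 ≤ q) (hq' : (q : ℝ) ≤ (N : ℝ) ^ η)
    (hh : 1 ≤ h) (hh' : (h : ℝ) ≤ (N : ℝ) ^ (4 * η)) (α : ℝ) :
    ‖SS a b N ((h : ℝ) / q) α‖ ^ 2 ≤ GG η a b N α := by
  have hqm : q ∈ Finset.Icc 1 ⌊(N : ℝ) ^ η⌋₊ := by
    rw [Finset.mem_Icc]
    exact ⟨hq, Nat.le_floor hq'⟩
  have hhm : h ∈ Finset.Icc 1 ⌊(N : ℝ) ^ (4 * η)⌋₊ := by
    rw [Finset.mem_Icc]
    exact ⟨hh, Nat.le_floor hh'⟩
  calc ‖SS a b N ((h : ℝ) / q) α‖ ^ 2 ≤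
      ∑ h ∈ Finset.Icc 1 ⌊(N : ℝ) ^ (4 * η)⌋₊, ‖SS a b N ((h : ℝ) / q) α‖ ^ 2 :=
        single_le_sum (f := fun h : ℕ => ‖SS a b N ((h : ℝ) / q) α‖ ^ 2)
          (fun h _ => by positivity) hhm
    _ ≤ GG η a b N α := single_le_sum (f := fun q : ℕ =>
          ∑ h ∈ Finset.Icc 1 ⌊(N : ℝ) ^ (4 * η)⌋₊, ‖SS a b N ((h : ℝ) / q) α‖ ^ 2)
          (fun q _ => sum_nonneg fun h _ => by positivity) hqm

lemma integrable_GG (μ : Measure ℝ) [IsFiniteMeasure μ] (η : ℝ) (a b : ℕ → ℝ) (N : ℕ) :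
    Integrable (GG η a b N) μ := by
  unfold GG
  exact integrable_finsetSum _ fun q _ => integrable_finsetSum _ fun h _ =>
    integrable_SS μ a b N _

lemma int_GG (μ : Measure ℝ) [IsFiniteMeasure μ] (η : ℝ) (a b : ℕ → ℝ) (N : ℕ)
    (hN : 1 ≤ N) (V : ℝ) (hV0 : 0 ≤ V)
    (hV : ∀ θ : ℝ, (N : ℝ) ^ (-η) ≤ θ → ∫ α, ‖SS a b N θ α‖ ^ 2 ∂μ ≤ V) :
    ∫ α, GG η a b N α ∂μ ≤ (N : ℝ) ^ (5 * η) * V := by
  have hNr : (1 : ℝ) ≤ N := by exact_mod_cast hN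
  have hN0 : (0 : ℝ) < N := by linarith
  have h1 : ∀ q ∈ Finset.Icc 1 ⌊(N : ℝ) ^ η⌋₊, ∀ h ∈ Finset.Icc 1 ⌊(N : ℝ) ^ (4 * η)⌋₊,
      ∫ α, ‖SS a b N ((h : ℝ) / q) α‖ ^ 2 ∂μ ≤ V := by
    intro q hq h hh
    rw [Finset.mem_Icc] at hq hh
    have hq1 : (q : ℝ) ≤ (N : ℝ) ^ η :=
      (Nat.cast_le.mpr hq.2).trans (Nat.floor_le (by positivity))
    have hq0 : (0 : ℝ) < q := by exact_mod_cast hq.1
    have hh1 : (1 : ℝ) ≤ h := by exact_mod_cast hh.1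
    apply hV
    rw [Real.rpow_neg hN0.le]
    calc ((N : ℝ) ^ η)⁻¹ ≤ (q : ℝ)⁻¹ := inv_anti₀ hq0 hq1
      _ = 1 / q := by rw [one_div]
      _ ≤ _ := by gcongr
  have e1 : ∫ α, GG η a b N α ∂μ = ∑ q ∈ Finset.Icc 1 ⌊(N : ℝ) ^ η⌋₊,
      ∑ h ∈ Finset.Icc 1 ⌊(N : ℝ) ^ (4 * η)⌋₊, ∫ α, ‖SS a b N ((h : ℝ) / q) α‖ ^ 2 ∂μ := by
    unfold GG
    rw [integral_finsetSum _ fun q _ => integrable_finsetSum _ fun h _ =>
      integrable_SS μ a b N _]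
    refine sum_congr rfl fun q _ => ?_
    rw [integral_finsetSum _ fun h _ => integrable_SS μ a b N _]
  rw [e1]
  have hcardh : ∀ x : ℝ, 0 ≤ x → ((Finset.Icc 1 ⌊x⌋₊).card : ℝ) ≤ x := by
    intro x hx
    rw [Nat.card_Icc, Nat.add_sub_cancel]
    exact Nat.floor_le hx
  calc ∑ q ∈ Finset.Icc 1 ⌊(N : ℝ) ^ η⌋₊, ∑ h ∈ Finset.Icc 1 ⌊(N : ℝ) ^ (4 * η)⌋₊,
      ∫ α, ‖SS a b N ((h : ℝ) / q) α‖ ^ 2 ∂μ ≤
      ∑ q ∈ Finset.Icc 1 ⌊(N : ℝ) ^ η⌋₊, ((N : ℝ) ^ (4 * η) * V) := by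
        refine sum_le_sum fun q hq => ?_
        refine (sum_le_sum fun h hh => h1 q hq h hh).trans ?_
        rw [sum_const, nsmul_eq_mul]
        gcongr
        exact hcardh _ (by positivity)
    _ ≤ (N : ℝ) ^ η * ((N : ℝ) ^ (4 * η) * V) := by
        rw [sum_const, nsmul_eq_mul]
        gcongr
        exact hcardh _ (by positivity)
    _ = _ := by
        rw [← mul_assoc, ← Real.rpow_add hN0]
        congr 2
        ring

/-- the parameters for which the block is bad -/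
def Bad (η : ℝ) (a b : ℕ → ℝ) (R : ℝ) (j : ℕ) : Set ℝ :=
  {α | |α| ≤ R ∧ ¬ Good η a b j α}

theorem dim_bad (ρ η C s R : ℝ) (hρ0 : 0 ≤ ρ) (hρ1 : ρ ≤ 1) (hη : 0 < η) (hC : 0 ≤ C)
    (hR : 0 ≤ R) (hs : 0 < s) (hlt : 17 * η + (C + 10 * η) * (1 - s) < ρ)
    (a b : ℕ → ℝ) (ha : ∀ᶠ n : ℕ in atTop, (n : ℝ) ^ (ρ - 1) ≤ a (n + 1) - a n)
    (haC : ∀ᶠ n : ℕ in atTop, |a n| ≤ (n : ℝ) ^ C) :
    dimH {α | ∃ᶠ j in atTop, α ∈ Bad η a b R j} ≤ ENNReal.ofReal s := by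
  set δ : ℝ := ρ - (17 * η + (C + 10 * η) * (1 - s)) with hδ
  have hδ0 : 0 < δ := by linarith
  set γ : ℝ := C + 10 * η with hγ
  have hγ0 : 0 < γ := by positivity
  set r : ℕ → ℝ := fun j => ((2 ^ j : ℕ) : ℝ) ^ (-γ) with hr
  have hcast : Tendsto (fun j : ℕ => ((2 ^ j : ℕ) : ℝ)) atTop atTop :=
    tendsto_natCast_atTop_atTop.comp (tendsto_pow_atTop_atTop_of_one_lt (by norm_num))
  have hr0 : Tendsto r atTop (𝓝 0) := (tendsto_rpow_neg_atTop hγ0).comp hcast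
  have hrpos : ∀ j, 0 < r j := fun j => by
    simp only [hr]
    positivity
  have hx1 : (2 : ℝ) ^ (-δ) < 1 := Real.rpow_lt_one_of_one_lt_of_neg (by norm_num) (by linarith)
  refine dim_limsup s hs (Bad η a b R) r hrpos hr0 (4 * (2 * R + 3)) ((2 : ℝ) ^ (-δ))
    (by positivity) (by positivity) hx1 ?_
  have hmean := block_sharp (R + 1) (by linarith) ρ η hρ0 hρ1 hη a b ha
  obtain ⟨n₁, hn₁⟩ := eventually_atTop.mp haC
  have hnat : Tendsto (fun j : ℕ => 2 ^ j) atTop (atTop : Filter ℕ) :=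
    tendsto_pow_atTop_atTop_of_one_lt (by norm_num)
  have hbig : ∀ᶠ j : ℕ in atTop, 14 * (2 : ℝ) ^ C ≤ ((2 ^ j : ℕ) : ℝ) ^ η :=
    ((tendsto_rpow_atTop hη).comp hcast).eventually_ge_atTop _
  filter_upwards [hnat.eventually hmean, hnat.eventually_ge_atTop n₁, hbig,
    hr0.eventually (gt_mem_nhds one_pos)] with j hj1 hj2 hj3 hj4
  set N : ℕ := 2 ^ j with hN
  have hN1 : 1 ≤ N := Nat.one_le_two_pow
  have hNr : (1 : ℝ) ≤ N := by exact_mod_cast hN1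
  have hN0 : (0 : ℝ) < N := by linarith
  have hrj : r j = (N : ℝ) ^ (-γ) := rfl
  have hA : ∀ n ∈ Finset.Ioc N (2 * N), |a n| ≤ (2 * N : ℝ) ^ C := by
    intro n hn
    rw [Finset.mem_Ioc] at hn
    refine (hn₁ n (by omega)).trans ?_
    apply Real.rpow_le_rpow (by positivity) _ hC
    exact_mod_cast hn.2
  have ht : (0 : ℝ) < (N : ℝ) ^ (2 - 10 * η) / 4 := by positivity
  have hU : ∀ k, (cell (r j) k ∩ Bad η a b R j).Nonempty →
      cell (r j) k ⊆ Set.Ioc (-(R + 1)) (R + 1) := by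
    rintro k ⟨α, hα1, hα2, -⟩ x hx
    have h1 := cell_dist (r j) k x α hx hα1
    rw [abs_le] at h1 hα2
    constructor <;> linarith
  have hG : ∀ k, (cell (r j) k ∩ Bad η a b R j).Nonempty → ∀ x ∈ cell (r j) k,
      (N : ℝ) ^ (2 - 10 * η) / 4 ≤ GG η a b N x := by
    rintro k ⟨α, hα1, -, hα3⟩ x hx
    unfold Good at hα3
    push Not at hα3
    obtain ⟨q, h, hq, hqX, hh, hhX, hbad⟩ := hα3
    have hq0 : (0 : ℝ) < q := by exact_mod_cast hq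
    have hh0 : (0 : ℝ) < h := by exact_mod_cast hh
    refine le_trans ?_ (le_GG η a b N q h hq hqX hh hhX x)
    have h1 := cell_dist (r j) k α x hα1 hx
    have hθ0 : 0 ≤ (h : ℝ) / q := by positivity
    have hθ : (h : ℝ) / q ≤ (N : ℝ) ^ (4 * η) := by
      refine le_trans ?_ hhX
      apply div_le_self hh0.le
      exact_mod_cast hq
    have h2 := SS_lip a b N ((2 * N : ℝ) ^ C) ((h : ℝ) / q) α x hθ0 hA
    have h3 : (N : ℝ) * (7 * ((h : ℝ) / q * (|α - x| * (2 * N : ℝ) ^ C))) ≤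
        (N : ℝ) ^ (1 - 5 * η) / 2 := by
      calc (N : ℝ) * (7 * ((h : ℝ) / q * (|α - x| * (2 * N : ℝ) ^ C))) ≤
          N * (7 * ((N : ℝ) ^ (4 * η) * ((N : ℝ) ^ (-γ) * (2 * N : ℝ) ^ C))) := by
            rw [← hrj]
            gcongr
        _ = (14 * (2 : ℝ) ^ C) * ((N : ℝ) ^ (1 : ℝ) * (N : ℝ) ^ (4 * η) * (N : ℝ) ^ (-γ) *
            (N : ℝ) ^ C) / 2 := by
            rw [Real.mul_rpow (by norm_num) hN0.le, Real.rpow_one]
            ring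
        _ ≤ (N : ℝ) ^ η * ((N : ℝ) ^ (1 : ℝ) * (N : ℝ) ^ (4 * η) * (N : ℝ) ^ (-γ) *
            (N : ℝ) ^ C) / 2 := by gcongr
        _ = _ := by
            rw [← Real.rpow_add hN0, ← Real.rpow_add hN0, ← Real.rpow_add hN0,
              ← Real.rpow_add hN0, hγ]
            congr 2
            ring
    have h4 : ‖SS a b N ((h : ℝ) / q) α‖ - ‖SS a b N ((h : ℝ) / q) x‖ ≤
        (N : ℝ) ^ (1 - 5 * η) / 2 := (norm_sub_norm_le _ _).trans (h2.trans h3)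
    have h5 : (N : ℝ) ^ (1 - 5 * η) < ‖SS a b N ((h : ℝ) / q) α‖ := hbad
    have h6 : (N : ℝ) ^ (1 - 5 * η) / 2 ≤ ‖SS a b N ((h : ℝ) / q) x‖ := by linarith
    calc (N : ℝ) ^ (2 - 10 * η) / 4 = ((N : ℝ) ^ (1 - 5 * η) / 2) ^ 2 := by
          rw [div_pow, ← Real.rpow_natCast, ← Real.rpow_mul hN0.le]
          norm_num
          congr 1
          ring
      _ ≤ _ := by gcongr
  have hV : ∫ α, GG η a b N α ∂(volume.restrict (Set.Ioc (-(R + 1)) (R + 1))) ≤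
      (N : ℝ) ^ (5 * η) * ((2 * R + 3) * (N : ℝ) ^ (2 - ρ + 2 * η)) := by
    apply int_GG _ η a b N hN1 _ (by positivity)
    intro θ hθ
    refine (hj1 θ hθ).trans (le_of_eq ?_)
    ring
  refine (hits_bound (r j) (hrpos j) s ((N : ℝ) ^ (2 - 10 * η) / 4) ht _ _ (GG η a b N)
    (GG_nonneg η a b N) (integrable_GG _ η a b N) hU hG).trans ?_
  apply ENNReal.ofReal_le_ofReal
  have hrs : r j ^ (s - 1) = (N : ℝ) ^ (γ * (1 - s)) := by
    rw [hrj, ← Real.rpow_mul hN0.le]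
    congr 1
    ring
  have hxj : ((2 : ℝ) ^ (-δ)) ^ j = (N : ℝ) ^ (-δ) := by
    rw [hN, ← Real.rpow_natCast ((2 : ℝ) ^ (-δ)), ← Real.rpow_mul (by norm_num)]
    push_cast
    rw [← Real.rpow_natCast, ← Real.rpow_mul (by norm_num)]
    ring_nf
  rw [hrs, hxj]
  calc (N : ℝ) ^ (γ * (1 - s)) / ((N : ℝ) ^ (2 - 10 * η) / 4) *
        ∫ x, GG η a b N x ∂(volume.restrict (Set.Ioc (-(R + 1)) (R + 1))) ≤
      (N : ℝ) ^ (γ * (1 - s)) / ((N : ℝ) ^ (2 - 10 * η) / 4) *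
        ((N : ℝ) ^ (5 * η) * ((2 * R + 3) * (N : ℝ) ^ (2 - ρ + 2 * η))) := by gcongr
    _ = 4 * (2 * R + 3) * ((N : ℝ) ^ (γ * (1 - s)) * (N : ℝ) ^ (-(2 - 10 * η)) *
        (N : ℝ) ^ (5 * η) * (N : ℝ) ^ (2 - ρ + 2 * η)) := by
        rw [Real.rpow_neg hN0.le (2 - 10 * η)]
        field_simp
    _ = 4 * (2 * R + 3) * (N : ℝ) ^ (-δ) := by
        rw [← Real.rpow_add hN0, ← Real.rpow_add hN0, ← Real.rpow_add hN0, hδ]
        congr 2
        ring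
    _ ≤ _ := le_rfl

end Pool.Agent.X33.MD
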