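import Mathlib

set_option autoImplicit false

/-! The `n`-th prime is at most `n ^ (1 + δ)` for large `n`. -/

namespace Pool.Agent.X33.MD

open Filter Topology

lemma count_nth (n : ℕ) : Nat.primeCounting (Nat.nth Nat.Prime n) = n + 1 := by
  have h1 : Nat.primeCounting' (Nat.nth Nat.Prime n) = n := Nat.primeCounting'_nth_eq n
  rw [Nat.primeCounting, Nat.primeCounting', Nat.count_succ]
  rw [Nat.primeCounting'] at h1
  rw [h1, if_pos (Nat.prime_nth_prime n)]

lemma nth_tendsto : Tendsto (fun n : ℕ => ((Nat.nth Nat.Prime n : ℕ) : ℝ)) atTop atTop :=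
  tendsto_natCast_atTop_atTop.comp (Nat.nth_strictMono Nat.infinite_setOfPred_prime).tendsto_atTop

lemma primes_growth (δ : ℝ) (hδ : 0 < δ) :
    ∀ᶠ n : ℕ in atTop, |((Nat.nth Nat.Prime n : ℕ) : ℝ)| ≤ (n : ℝ) ^ (1 + δ) := by
  set δ' : ℝ := δ / (1 + δ) with hδ'
  have hd0 : 0 < δ' := by positivity
  have hmul : (1 - δ') * (1 + δ) = 1 := by
    rw [hδ']
    field_simp
    ring
  have h1 : ∀ᶠ x : ℝ in atTop, Real.log x ≤ 1 / 8 * x ^ δ' := by
    filter_upwards [(isLittleO_log_rpow_atTop hd0).bound (show (0 : ℝ) < 1 / 8 by norm_num),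
      eventually_ge_atTop 1] with x hx hx1
    rw [Real.norm_of_nonneg (Real.log_nonneg hx1), Real.norm_of_nonneg (by positivity)] at hx
    exact hx
  have h2 : ∀ᶠ x : ℝ in atTop, Real.log x ≤ 1 / 8 * x := by
    filter_upwards [Real.isLittleO_log_id_atTop.bound (show (0 : ℝ) < 1 / 8 by norm_num),
      eventually_ge_atTop 1] with x hx hx1
    rw [Real.norm_of_nonneg (Real.log_nonneg hx1), id, Real.norm_of_nonneg (by linarith)] at hx
    exact hx
  have h3 : ∀ᶠ x : ℝ in atTop, Real.log (x + 1) ≤ 1 / 4 * x := by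
    filter_upwards [(tendsto_atTop_add_const_right atTop (1 : ℝ) tendsto_id).eventually h2,
      eventually_ge_atTop 1] with x hx hx1
    simp only [id] at hx
    linarith
  filter_upwards [nth_tendsto.eventually h1, nth_tendsto.eventually h3,
    nth_tendsto.eventually_ge_atTop 1, eventually_ge_atTop 1] with n g1 g3 g4 g5
  set p : ℕ := Nat.nth Nat.Prime n with hp
  have hp0 : (0 : ℝ) < p := by linarith
  have hn1 : (1 : ℝ) ≤ n := by exact_mod_cast g5
  rw [abs_of_pos hp0]
  have k1 : (p : ℝ) * Real.log 2 - Real.log (p + 1) ≤ Chebyshev.psi p := Chebyshev.psi_ge p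
  have k2 : Chebyshev.psi p ≤ (Nat.primeCounting p) * Real.log p :=
    Chebyshev.psi_le_primeCounting_mul_log p
  rw [hp, count_nth n, ← hp] at k2
  have k3 : (1 : ℝ) / 2 ≤ Real.log 2 := by
    have := Real.log_two_gt_d9
    linarith
  have k4 : (p : ℝ) / 4 ≤ (n + 1) * Real.log p := by
    push_cast at k2
    nlinarith
  have k5 : (p : ℝ) / 4 ≤ (2 * n) * (1 / 8 * (p : ℝ) ^ δ') := by
    refine k4.trans ?_
    have hlog : 0 ≤ Real.log p := Real.log_nonneg g4
    calc ((n : ℝ) + 1) * Real.log p ≤ (2 * n) * Real.log p := by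
          apply mul_le_mul_of_nonneg_right _ hlog
          linarith
      _ ≤ _ := by gcongr
  have k6 : (p : ℝ) ≤ n * (p : ℝ) ^ δ' := by linarith
  have k7 : (p : ℝ) ^ (1 - δ') ≤ n := by
    rw [Real.rpow_sub hp0, Real.rpow_one, div_le_iff₀ (by positivity)]
    exact k6
  calc (p : ℝ) = ((p : ℝ) ^ (1 - δ')) ^ (1 + δ) := by
        rw [← Real.rpow_mul hp0.le, hmul, Real.rpow_one]
    _ ≤ (n : ℝ) ^ (1 + δ) := by gcongr

end Pool.Agent.X33.MD
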