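import Pool.Agent.X33.MD.Four
import Pool.Agent.X33.MD.Primes

set_option autoImplicit false

/-! The final form of the theorems on exceptional sets. -/

namespace Pool.Agent.X33.MD

open Finset Filter MeasureTheory Topology
open Pool.Agent.TH668.Met
open Pool.Agent.H469R2.NK (e norm_e e_add conj_e)
open Pool.Agent.W147.PS (ff ev_pow)
open scoped ENNReal NNReal

lemma meets_mono (κ ε ε' : ℝ) (h : ε ≤ ε') (u : ℕ → ℝ) (hu : Meets κ ε u) : Meets κ ε' u := by
  obtain ⟨M₀, hM₀⟩ := hu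
  refine ⟨max M₀ 1, fun M hM β hβ => ?_⟩
  have hM1 : 1 ≤ M := (le_max_right _ _).trans hM
  refine le_trans ?_ (hM₀ M ((le_max_left _ _).trans hM) β fun n h1 h2 => ?_)
  · exact Real.rpow_le_rpow_of_exponent_le hM1 (by linarith)
  · exact (Real.rpow_le_rpow_of_exponent_le hM1 h).trans (hβ n h1 h2)

/-- the dimension of the exceptional set, with a uniform constant -/
theorem dim_one (ρ ε C s : ℝ) (hρ : 0 < ρ) (hρ1 : ρ ≤ 1) (hε : 0 < ε) (hC : 0 ≤ C) (hs : 0 < s)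
    (hCs : C * (1 - s) < ρ) : ∃ κ : ℝ, 0 < κ ∧ ∀ a b : ℕ → ℝ,
      (∀ᶠ n : ℕ in atTop, (n : ℝ) ^ (ρ - 1) ≤ a (n + 1) - a n) →
      (∀ᶠ n : ℕ in atTop, |a n| ≤ (n : ℝ) ^ C) →
      dimH {α : ℝ | ¬ Meets κ ε (fun n => α * a n + b n)} ≤ ENNReal.ofReal s := by
  set t : ℝ := ρ - C * (1 - s) with ht
  have ht0 : 0 < t := by linarith
  set η : ℝ := min (t / (17 + 10 * (1 + |1 - s|)) / 2) (min (1 / 10) (ε / 6)) with hη
  have hη0 : 0 < η := by
    apply lt_min
    · positivity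
    · exact lt_min (by norm_num) (by positivity)
  have hη1 : η ≤ t / (17 + 10 * (1 + |1 - s|)) / 2 := min_le_left _ _
  have hη2 : η ≤ 1 / 10 := (min_le_right _ _).trans (min_le_left _ _)
  have hη3 : 6 * η ≤ ε := by
    have : η ≤ ε / 6 := (min_le_right _ _).trans (min_le_right _ _)
    linarith
  have hlt : 17 * η + (C + 10 * η) * (1 - s) < ρ := by
    have h1 : (17 + 10 * (1 + |1 - s|)) * η ≤ t / 2 := by
      have h2 : (0 : ℝ) < 17 + 10 * (1 + |1 - s|) := by positivity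
      calc (17 + 10 * (1 + |1 - s|)) * η ≤
          (17 + 10 * (1 + |1 - s|)) * (t / (17 + 10 * (1 + |1 - s|)) / 2) := by gcongr
        _ = t / 2 := by field_simp
    have h3 : η * (1 - s) ≤ η * |1 - s| := by
      apply mul_le_mul_of_nonneg_left (le_abs_self _) hη0.le
    nlinarith
  obtain ⟨κ, hκ, hgood⟩ := meets_of_good η ε hη0 hη2 hη3
  refine ⟨κ, hκ, fun a b ha haC => ?_⟩
  have hsub : {α : ℝ | ¬ Meets κ ε (fun n => α * a n + b n)} ⊆
      ⋃ R : ℕ, {α | ∃ᶠ j in atTop, α ∈ Bad η a b R j} := by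
    intro α hα
    rw [Set.mem_ofPred_eq] at hα
    have h1 : ¬ ∀ᶠ j in atTop, Good η a b j α := fun h => hα (hgood a b α h)
    rw [not_eventually] at h1
    rw [Set.mem_iUnion]
    refine ⟨⌈|α|⌉₊, ?_⟩
    exact h1.mono fun j hj => ⟨Nat.le_ceil _, hj⟩
  refine (dimH_mono hsub).trans ?_
  rw [dimH_iUnion]
  exact iSup_le fun R => dim_bad ρ η C s R hρ.le hρ1 hη0 hC (Nat.cast_nonneg _) hs hlt a b ha haC

/-- the dimension of the set of parameters for which the sequence does not meet the record gaps -/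
theorem dim_two (ρ C : ℝ) (hρ : 0 < ρ) (hρ1 : ρ ≤ 1) (hC : 0 < C) (a b : ℕ → ℝ)
    (ha : ∀ δ : ℝ, 0 < δ → ∀ᶠ n : ℕ in atTop, (n : ℝ) ^ (ρ - δ - 1) ≤ a (n + 1) - a n)
    (haC : ∀ δ : ℝ, 0 < δ → ∀ᶠ n : ℕ in atTop, |a n| ≤ (n : ℝ) ^ (C + δ)) :
    dimH {α : ℝ | ¬ ∀ ε : ℝ, 0 < ε → ∃ κ : ℝ, 0 < κ ∧ Meets κ ε (fun n => α * a n + b n)} ≤
      ENNReal.ofReal (1 - ρ / C) := by
  apply ENNReal.le_of_forall_pos_le_add
  intro ε' hε' _
  have hε'0 : (0 : ℝ) < ε' := by exact_mod_cast hε'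
  set s : ℝ := max (1 - ρ / C) 0 + ε' with hs
  have hs0 : 0 < s := by
    have := le_max_right (1 - ρ / C) 0
    linarith
  have hsC : 1 - ρ / C + ε' ≤ s := by
    have := le_max_left (1 - ρ / C) 0
    linarith
  have hofReal : ENNReal.ofReal s ≤ ENNReal.ofReal (1 - ρ / C) + ε' := by
    rw [hs, ENNReal.ofReal_add (le_max_right _ _) hε'0.le]
    apply add_le_add
    · rcases le_total (1 - ρ / C) 0 with h | h
      · rw [max_eq_right h, ENNReal.ofReal_zero]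
        exact zero_le
      · rw [max_eq_left h]
    · rw [ENNReal.ofReal_coe_nnreal]
  refine le_trans ?_ hofReal
  -- choose the loss
  have hkey : C * (1 - s) < ρ := by
    have h1 : C * (1 - s) ≤ C * (ρ / C - ε') := by
      apply mul_le_mul_of_nonneg_left _ hC.le
      linarith
    have h2 : C * (ρ / C - ε') = ρ - C * ε' := by field_simp
    have h3 : 0 < C * ε' := by positivity
    linarith
  set t : ℝ := ρ - C * (1 - s) with ht
  have ht0 : 0 < t := by linarith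
  set δ : ℝ := min (t / (2 * (1 + |1 - s|)) ) (ρ / 2) with hδ
  have hδ0 : 0 < δ := lt_min (by positivity) (by positivity)
  have hδ1 : δ ≤ t / (2 * (1 + |1 - s|)) := min_le_left _ _
  have hδ2 : δ ≤ ρ / 2 := min_le_right _ _
  have hlt : (C + δ) * (1 - s) < ρ - δ := by
    have h1 : δ * (1 + |1 - s|) ≤ t / 2 := by
      calc δ * (1 + |1 - s|) ≤ t / (2 * (1 + |1 - s|)) * (1 + |1 - s|) := by gcongr
        _ = t / 2 := by field_simp
    have h3 : δ * (1 - s) ≤ δ * |1 - s| := by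
      apply mul_le_mul_of_nonneg_left (le_abs_self _) hδ0.le
    nlinarith
  have hone : ∀ m : ℕ, ∃ κ : ℝ, 0 < κ ∧
      dimH {α : ℝ | ¬ Meets κ (1 / ((m : ℝ) + 1)) (fun n => α * a n + b n)} ≤
        ENNReal.ofReal s := by
    intro m
    obtain ⟨κ, hκ, h⟩ := dim_one (ρ - δ) (1 / ((m : ℝ) + 1)) (C + δ) s (by linarith) (by linarith)
      (by positivity) (by linarith) hs0 hlt
    exact ⟨κ, hκ, h a b (ha δ hδ0) (haC δ hδ0)⟩
  choose κ hκ hdim using hone
  have hsub : {α : ℝ | ¬ ∀ ε : ℝ, 0 < ε → ∃ κ : ℝ, 0 < κ ∧ Meets κ ε (fun n => α * a n + b n)} ⊆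
      ⋃ m : ℕ, {α : ℝ | ¬ Meets (κ m) (1 / ((m : ℝ) + 1)) (fun n => α * a n + b n)} := by
    intro α hα
    rw [Set.mem_ofPred_eq] at hα
    rw [Set.mem_iUnion]
    by_contra hcon
    push Not at hcon
    apply hα
    intro ε hε
    obtain ⟨m, hm⟩ := exists_nat_one_div_lt hε
    have h1 := hcon m
    rw [Set.mem_ofPred_eq, not_not] at h1
    exact ⟨κ m, hκ m, meets_mono _ _ _ hm.le _ h1⟩
  refine (dimH_mono hsub).trans ?_
  rw [dimH_iUnion]
  exact iSup_le hdim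

/-- almost every parameter for measures whose Fourier transform decays -/
theorem ae_meets (ρ ε τ : ℝ) (hρ : 0 < ρ) (hρ1 : ρ ≤ 1) (hε : 0 < ε) (hτ : 0 < τ) :
    ∃ κ : ℝ, 0 < κ ∧ ∀ (μ : Measure ℝ) [IsFiniteMeasure μ] (C : ℝ),
      (∀ ξ : ℝ, 1 ≤ |ξ| → ‖∫ x, e (ξ * x) ∂μ‖ ≤ C * |ξ| ^ (-τ)) →
      ∀ a b : ℕ → ℝ, (∀ᶠ n : ℕ in atTop, (n : ℝ) ^ (ρ - 1) ≤ a (n + 1) - a n) →
      ∀ᵐ α ∂μ, Meets κ ε (fun n => α * a n + b n) := by
  set ω : ℝ := min (ρ / 2) (ρ * τ / 4) with hω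
  have hω0 : 0 < ω := lt_min (by positivity) (by positivity)
  set η : ℝ := min (ω / 30) (min (1 / 10) (ε / 6)) with hη
  have hη0 : 0 < η := by
    apply lt_min
    · positivity
    · exact lt_min (by norm_num) (by positivity)
  have hη1 : η ≤ ω / 30 := min_le_left _ _
  have hη2 : η ≤ 1 / 10 := (min_le_right _ _).trans (min_le_left _ _)
  have hη3 : 6 * η ≤ ε := by
    have : η ≤ ε / 6 := (min_le_right _ _).trans (min_le_right _ _)
    linarith
  obtain ⟨κ, hκ, hgood⟩ := meets_of_good η ε hη0 hη2 hη3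
  refine ⟨κ, hκ, fun μ _ C hμ a b ha => ?_⟩
  filter_upwards [ae_good μ C τ ρ η hτ hμ hρ hρ1 hη0 hη1 a b ha] with α hα
  exact hgood a b α hα

/-- the sequence of the primes -/
theorem dim_primes : dimH {α : ℝ | ¬ ∀ ε : ℝ, 0 < ε → ∃ κ : ℝ, 0 < κ ∧
      Meets κ ε (fun n => α * (Nat.nth Nat.Prime n : ℕ))} = 0 ∧
    ¬ ∀ ε : ℝ, 0 < ε → ∃ κ : ℝ, 0 < κ ∧
      Meets κ ε (fun n => (1 : ℝ) * (Nat.nth Nat.Prime n : ℕ)) := by
  constructor
  · have h := dim_two 1 1 one_pos le_rfl one_pos (fun n => ((Nat.nth Nat.Prime n : ℕ) : ℝ))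
      (fun _ => 0) (by
        intro δ hδ
        filter_upwards [eventually_ge_atTop 1] with n hn
        have hn1 : (1 : ℝ) ≤ n := by exact_mod_cast hn
        have h1 : (n : ℝ) ^ (1 - δ - 1) ≤ 1 := Real.rpow_le_one_of_one_le_of_nonpos hn1 (by linarith)
        have h2 : Nat.nth Nat.Prime n + 1 ≤ Nat.nth Nat.Prime (n + 1) :=
          Nat.nth_strictMono Nat.infinite_setOfPred_prime (Nat.lt_succ_self n)
        have h3 : ((Nat.nth Nat.Prime n : ℕ) : ℝ) + 1 ≤ ((Nat.nth Nat.Prime (n + 1) : ℕ) : ℝ) := by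
          exact_mod_cast h2
        linarith) (fun δ hδ => primes_growth δ hδ)
    simp only [add_zero] at h
    have h2 : ENNReal.ofReal (1 - 1 / 1) = 0 := by norm_num
    rw [h2] at h
    exact le_antisymm h zero_le
  · intro h
    obtain ⟨κ, hκ, M₀, hM₀⟩ := h 1 one_pos
    have t1 := Real.tendsto_log_atTop
    have t2 := t1.comp t1
    have t3 := t1.comp t2
    have t4 := t1.comp t3
    obtain ⟨M, g1, g2, g3, g4⟩ := ((eventually_ge_atTop M₀).and ((eventually_ge_atTop (1 : ℝ)).and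
      ((t1.eventually_ge_atTop 0).and (t4.eventually_ge_atTop 0)))).exists
    simp only [Function.comp] at g4
    have hff : 0 ≤ κ * ff M := by
      unfold ff
      positivity
    have h2 := hM₀ M g1 0 (by
        intro n hn _
        simp only
        rw [Real.rpow_one, add_zero, one_mul]
        have h3 : n + 2 ≤ Nat.nth Nat.Prime n := Nat.add_two_le_nth_prime n
        have h4 : (n : ℝ) + 2 ≤ ((Nat.nth Nat.Prime n : ℕ) : ℝ) := by exact_mod_cast h3
        linarith)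
    rw [sub_self, Real.rpow_zero] at h2
    have h5 : {n : ℕ | M < n ∧ (n : ℝ) ≤ 4 * M ∧ ∀ q : ℕ, q.Prime →
        κ * ff M < |(q : ℝ) - (1 * ((Nat.nth Nat.Prime n : ℕ) : ℝ) + 0)|} = ∅ := by
      rw [Set.eq_empty_iff_forall_notMem]
      rintro n ⟨_, _, h6⟩
      have := h6 _ (Nat.prime_nth_prime n)
      rw [one_mul, add_zero, sub_self, abs_zero] at this
      linarith
    rw [h5, Set.ncard_empty] at h2
    norm_num at h2

end Pool.Agent.X33.MD
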