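import Pool.Agent.X33.MD.Dim

set_option autoImplicit false

/-! Almost every parameter, for a measure whose Fourier transform decays. -/

namespace Pool.Agent.X33.MD

open Finset Filter MeasureTheory Topology
open Pool.Agent.TH668.Met
open Pool.Agent.H469R2.NK (e norm_e e_add conj_e)
open scoped ENNReal NNReal

theorem ae_good (μ : Measure ℝ) [IsFiniteMeasure μ] (C τ ρ η : ℝ) (hτ : 0 < τ)
    (hμ : ∀ ξ : ℝ, 1 ≤ |ξ| → ‖∫ x, e (ξ * x) ∂μ‖ ≤ C * |ξ| ^ (-τ)) (hρ : 0 < ρ) (hρ1 : ρ ≤ 1)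
    (hη : 0 < η) (hη1 : η ≤ min (ρ / 2) (ρ * τ / 4) / 30) (a b : ℕ → ℝ)
    (ha : ∀ᶠ n : ℕ in atTop, (n : ℝ) ^ (ρ - 1) ≤ a (n + 1) - a n) :
    ∀ᵐ α ∂μ, ∀ᶠ j in atTop, Good η a b j α := by
  set ω : ℝ := min (ρ / 2) (ρ * τ / 4) with hω
  have hω0 : 0 < ω := lt_min (by positivity) (by positivity)
  have hω1 : ω ≤ ρ / 2 := min_le_left _ _
  have hC : 0 ≤ C := by
    have := hμ 1 (by simp)
    have h2 := (norm_nonneg _).trans this
    simpa using h2
  obtain ⟨n₀, hn₀⟩ := eventually_atTop.mp ha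
  obtain ⟨N₁, hN₁⟩ := eventually_atTop.mp
    (block μ C τ hτ hμ a b ρ hρ hρ1 n₀ hn₀ η (by linarith))
  set m₀ : ℝ := μ.real Set.univ with hm₀
  have hm₀0 : 0 ≤ m₀ := measureReal_nonneg
  set r : ℝ := (2 : ℝ) ^ (-(ω / 2)) with hr
  have hr0 : 0 ≤ r := by positivity
  have hr1 : r < 1 := Real.rpow_lt_one_of_one_lt_of_neg (by norm_num) (by linarith)
  have hae := ae_ev μ (fun j α => GG η a b (2 ^ j) α * ((2 ^ j : ℕ) : ℝ) ^ (-(2 - 10 * η)))
    (fun j => (integrable_GG μ η a b (2 ^ j)).mul_const _)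
    (fun j α => mul_nonneg (GG_nonneg η a b _ α) (by positivity)) (4 * m₀ + C) r (by positivity)
    hr0 hr1 N₁ (by
      intro j hj
      set N : ℕ := 2 ^ j with hN
      have hNj : N₁ ≤ N := hj.trans (Nat.lt_two_pow_self).le
      have hN1 : 1 ≤ N := Nat.one_le_two_pow
      have hNr : (1 : ℝ) ≤ N := by exact_mod_cast hN1
      have hN0 : (0 : ℝ) < N := by linarith
      rw [integral_mul_const]
      have h1 := int_GG μ η a b N hN1 ((4 * m₀ + C) * (N : ℝ) ^ (2 - ω)) (by positivity)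
        (fun θ hθ => hN₁ N hNj θ hθ)
      calc (∫ α, GG η a b N α ∂μ) * (N : ℝ) ^ (-(2 - 10 * η)) ≤
          (N : ℝ) ^ (5 * η) * ((4 * m₀ + C) * (N : ℝ) ^ (2 - ω)) * (N : ℝ) ^ (-(2 - 10 * η)) := by
            gcongr
        _ = (4 * m₀ + C) * ((N : ℝ) ^ (5 * η) * (N : ℝ) ^ (2 - ω) *
            (N : ℝ) ^ (-(2 - 10 * η))) := by ring
        _ = (4 * m₀ + C) * (N : ℝ) ^ (15 * η - ω) := by
            rw [← Real.rpow_add hN0, ← Real.rpow_add hN0]
            ring_nf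
        _ ≤ (4 * m₀ + C) * (N : ℝ) ^ (-(ω / 2)) := by
            gcongr
            linarith
        _ = (4 * m₀ + C) * r ^ j := by
            rw [hN, hr, ← Real.rpow_natCast ((2 : ℝ) ^ (-(ω / 2))), ← Real.rpow_mul (by norm_num)]
            push_cast
            rw [← Real.rpow_natCast, ← Real.rpow_mul (by norm_num)]
            ring_nf)
  filter_upwards [hae] with α hα
  filter_upwards [hα] with j hj
  intro q h hq hqX hh hhX
  set N : ℕ := 2 ^ j with hN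
  have hN1 : 1 ≤ N := Nat.one_le_two_pow
  have hNr : (1 : ℝ) ≤ N := by exact_mod_cast hN1
  have hN0 : (0 : ℝ) < N := by linarith
  have h1 := le_GG η a b N q h hq hqX hh hhX α
  have h2 : GG η a b N α ≤ (N : ℝ) ^ (2 - 10 * η) := by
    rw [Real.rpow_neg hN0.le, ← div_eq_mul_inv, div_le_one (by positivity)] at hj
    exact hj
  have h3 : (N : ℝ) ^ (2 - 10 * η) = ((N : ℝ) ^ (1 - 5 * η)) ^ 2 := by
    rw [← Real.rpow_natCast, ← Real.rpow_mul hN0.le]
    congr 1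
    push_cast
    ring
  have h4 := h1.trans (h2.trans (le_of_eq h3))
  exact (pow_le_pow_iff_left₀ (norm_nonneg _) (by positivity) (by norm_num)).mp h4

end Pool.Agent.X33.MD
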