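import Pool.Agent.TH668.Met.Leb

set_option autoImplicit false

/-! Blocks whose exponential sums are small contain many members in record gaps. -/

namespace Pool.Agent.X33.MD

open Finset Filter MeasureTheory
open Pool.Agent.TH915.PW
open Pool.Agent.H469R2.NK (e norm_e e_add conj_e)
open Pool.Agent.W147.PS (ff ev_pow)

/-- all the exponential sums of the dyadic block `(2 ^ j, 2 ^ (j+1)]` are small -/
def Good (η : ℝ) (a b : ℕ → ℝ) (j : ℕ) (α : ℝ) : Prop :=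
  ∀ q h : ℕ, 1 ≤ q → (q : ℝ) ≤ ((2 ^ j : ℕ) : ℝ) ^ η → 1 ≤ h →
    (h : ℝ) ≤ ((2 ^ j : ℕ) : ℝ) ^ (4 * η) →
    ‖∑ n ∈ Finset.Ioc (2 ^ j) (2 * 2 ^ j), e ((h : ℝ) / q * (α * a n + b n))‖ ≤
      ((2 ^ j : ℕ) : ℝ) ^ (1 - 5 * η)

/-- For all large `M` and ALL `β`: if the `u n + β` are at least `M ^ ε` for `M < n ≤ 4 M`, then at least
`M ^ (1 - ε)` of these `n` have no prime within `κ ff M` of `u n + β`. -/
def Meets (κ ε : ℝ) (u : ℕ → ℝ) : Prop :=
  ∃ M₀ : ℝ, ∀ M : ℝ, M₀ ≤ M → ∀ β : ℝ, (∀ n : ℕ, M < n → (n : ℝ) ≤ 4 * M → M ^ ε ≤ u n + β) →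
    M ^ (1 - ε) ≤ ({n : ℕ | M < n ∧ (n : ℝ) ≤ 4 * M ∧
      ∀ q : ℕ, q.Prime → κ * ff M < |(q : ℝ) - (u n + β)|}.ncard : ℝ)

theorem meets_of_good (η ε : ℝ) (hη : 0 < η) (hη1 : η ≤ 1 / 10) (hηε : 6 * η ≤ ε) :
    ∃ κ : ℝ, 0 < κ ∧ ∀ (a b : ℕ → ℝ) (α : ℝ), (∀ᶠ j in atTop, Good η a b j α) →
      Meets κ ε (fun n => α * a n + b n) := by
  classical
  obtain ⟨κ, hκ, hcrit⟩ := crit_scaled η hη (by linarith)
  refine ⟨κ, hκ, ?_⟩
  intro a b α hg
  obtain ⟨j₁, hj₁⟩ := eventually_atTop.mp hg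
  have hev : ∀ᶠ M : ℝ in atTop, ∀ β : ℝ,
      (∀ n : ℕ, M < n → (n : ℝ) ≤ 4 * M → M ^ ε ≤ α * a n + b n + β) →
    M ^ (1 - ε) ≤ ({n : ℕ | M < n ∧ (n : ℝ) ≤ 4 * M ∧
      ∀ q : ℕ, q.Prime → κ * ff M < |(q : ℝ) - (α * a n + b n + β)|}.ncard : ℝ) := by
    filter_upwards [hcrit, eventually_ge_atTop (1 : ℝ), eventually_ge_atTop ((2 : ℝ) ^ j₁),
      (tendsto_rpow_atTop hη).eventually_ge_atTop 8] with M hM hM1 hMj hM8
    intro β hβ
    have hM0 : 0 < M := by linarith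
    obtain ⟨j, hjM, hjM2⟩ : ∃ j : ℕ, M ≤ (2 : ℝ) ^ j ∧ (2 : ℝ) ^ j ≤ 2 * M := by
      obtain ⟨i, hi1, hi2⟩ := exists_nat_pow_near hM1 (by norm_num : (1 : ℝ) < 2)
      refine ⟨i + 1, hi2.le, ?_⟩
      rw [pow_succ]
      linarith
    have hj : j₁ ≤ j := by
      have h1 : (2 : ℝ) ^ j₁ ≤ 2 ^ j := hMj.trans hjM
      exact (pow_le_pow_iff_right₀ (by norm_num)).mp h1
    have hG := hj₁ j hj
    unfold Good at hG
    set N : ℕ := 2 ^ j with hN
    have hNc : (N : ℝ) = 2 ^ j := by rw [hN]; push_cast; ring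
    have hN1 : 1 ≤ N := Nat.one_le_two_pow
    have hNr : (1 : ℝ) ≤ N := by exact_mod_cast hN1
    have hN0 : (0 : ℝ) < N := by linarith
    have hMN : M ≤ N := by rw [hNc]; exact hjM
    have hNM : (N : ℝ) ≤ 2 * M := by rw [hNc]; exact hjM2
    have hcard : (Finset.Ioc N (2 * N)).card = N := by
      rw [Nat.card_Ioc]
      omega
    set B : Finset ℕ := Finset.Ioc N (2 * N) with hB
    set T : Finset ℕ := B.filter (fun n => ∀ q : ℕ, q.Prime → κ * ff M <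
      |(q : ℝ) - (α * a n + b n + β)|) with hT
    have hTB : T ⊆ B := filter_subset _ _
    have hfin : {n : ℕ | M < n ∧ (n : ℝ) ≤ 4 * M ∧
        ∀ q : ℕ, q.Prime → κ * ff M < |(q : ℝ) - (α * a n + b n + β)|}.Finite := by
      refine (Set.finite_Iic ⌊4 * M⌋₊).subset ?_
      rintro n ⟨-, h2, -⟩
      exact Nat.le_floor h2
    have hmem : ∀ n ∈ B, M < n ∧ (n : ℝ) ≤ 4 * M := by
      intro n hn
      rw [hB, Finset.mem_Ioc] at hn
      have h1 : (N : ℝ) < n := by exact_mod_cast hn.1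
      have h2 : (n : ℝ) ≤ 2 * N := by exact_mod_cast hn.2
      constructor <;> linarith
    have hsub : (T : Set ℕ) ⊆ {n : ℕ | M < n ∧ (n : ℝ) ≤ 4 * M ∧
        ∀ q : ℕ, q.Prime → κ * ff M < |(q : ℝ) - (α * a n + b n + β)|} := by
      intro n hn
      have hn' : n ∈ T := hn
      rw [hT, mem_filter] at hn'
      exact ⟨(hmem n hn'.1).1, (hmem n hn'.1).2, hn'.2⟩
    have hTle : (T.card : ℝ) ≤ ({n : ℕ | M < n ∧ (n : ℝ) ≤ 4 * M ∧
        ∀ q : ℕ, q.Prime → κ * ff M < |(q : ℝ) - (α * a n + b n + β)|}.ncard : ℝ) := by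
      rw [← Set.ncard_coe_finset T]
      exact_mod_cast Set.ncard_le_ncard hsub hfin
    refine le_trans ?_ hTle
    by_contra hcon
    rw [not_le] at hcon
    -- the set is small
    have hNη : (8 : ℝ) ≤ (N : ℝ) ^ η := hM8.trans (Real.rpow_le_rpow hM0.le hMN hη.le)
    have hT1 : (T.card : ℝ) ≤ (N : ℝ) ^ (1 - 6 * η) := by
      refine hcon.le.trans ?_
      calc M ^ (1 - ε) ≤ M ^ (1 - 6 * η) := Real.rpow_le_rpow_of_exponent_le hM1 (by linarith)
        _ ≤ _ := Real.rpow_le_rpow hM0.le hMN (by linarith)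
    have hp6 : (N : ℝ) ^ (1 - 6 * η) * (N : ℝ) ^ η = (N : ℝ) ^ (1 - 5 * η) := by
      rw [← Real.rpow_add hN0]
      ring_nf
    have hp5 : (N : ℝ) ^ (1 - 5 * η) * (N : ℝ) ^ η = (N : ℝ) ^ (1 - 4 * η) := by
      rw [← Real.rpow_add hN0]
      ring_nf
    have hp6' : (N : ℝ) ^ (1 - 6 * η) ≤ (N : ℝ) ^ (1 - 5 * η) :=
      Real.rpow_le_rpow_of_exponent_le hNr (by linarith)
    have hp4 : 8 * (N : ℝ) ^ (1 - 5 * η) ≤ (N : ℝ) ^ (1 - 4 * η) := by
      rw [← hp5]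
      have : 0 ≤ (N : ℝ) ^ (1 - 5 * η) := by positivity
      nlinarith
    have hp4' : (N : ℝ) ^ (1 - 4 * η) ≤ N := by
      calc (N : ℝ) ^ (1 - 4 * η) ≤ (N : ℝ) ^ (1 : ℝ) :=
            Real.rpow_le_rpow_of_exponent_le hNr (by linarith)
        _ = N := Real.rpow_one _
    have hT2 : (T.card : ℝ) ≤ N / 2 := by
      have : 0 ≤ (N : ℝ) ^ (1 - 5 * η) := by positivity
      linarith
    set s : Finset ℕ := B \ T with hs
    have hscard : (s.card : ℝ) = N - T.card := by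
      rw [hs, card_sdiff_of_subset hTB, Nat.cast_sub (card_le_card hTB), hcard]
    have hsge : (N : ℝ) / 2 ≤ s.card := by rw [hscard]; linarith
    obtain ⟨n, hn, hq⟩ := hM ℕ s (fun n => α * a n + b n + β)
      (by
        rw [← card_pos]
        have : (0 : ℝ) < s.card := by linarith
        exact_mod_cast this)
      (by
        intro n hn
        have hnB : n ∈ B := (mem_sdiff.1 hn).1
        calc M ^ η ≤ M ^ ε := Real.rpow_le_rpow_of_exponent_le hM1 (by linarith)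
          _ ≤ _ := hβ n (hmem n hnB).1 (hmem n hnB).2)
      (by
        intro q h hq hqX hh hhX
        have h1 := hG q h hq (hqX.trans (Real.rpow_le_rpow hM0.le hMN hη.le)) hh
          (hhX.trans (Real.rpow_le_rpow hM0.le hMN (by linarith)))
        have h2 : ∑ i ∈ s, e ((h : ℝ) / q * (α * a i + b i + β)) =
            (∑ i ∈ B, e ((h : ℝ) / q * (α * a i + b i)) -
              ∑ i ∈ T, e ((h : ℝ) / q * (α * a i + b i))) * e ((h : ℝ) / q * β) := by
          rw [← sum_sdiff hTB, add_sub_cancel_right, sum_mul]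
          refine sum_congr rfl fun i _ => ?_
          rw [← e_add]
          congr 1
          ring
        have h3 : ‖∑ i ∈ T, e ((h : ℝ) / q * (α * a i + b i))‖ ≤ T.card := by
          refine (norm_sum_le _ _).trans (le_of_eq ?_)
          simp only [norm_e]
          simp
        rw [h2, norm_mul, norm_e, mul_one]
        calc ‖∑ i ∈ B, e ((h : ℝ) / q * (α * a i + b i)) -
              ∑ i ∈ T, e ((h : ℝ) / q * (α * a i + b i))‖ ≤
            ‖∑ i ∈ B, e ((h : ℝ) / q * (α * a i + b i))‖ +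
              ‖∑ i ∈ T, e ((h : ℝ) / q * (α * a i + b i))‖ := norm_sub_le _ _
          _ ≤ (N : ℝ) ^ (1 - 5 * η) + (N : ℝ) ^ (1 - 5 * η) := add_le_add h1 (h3.trans
              (hT1.trans hp6'))
          _ ≤ (N : ℝ) / 2 * (N : ℝ) ^ (-(4 * η)) := by
              have h5 : (N : ℝ) * (N : ℝ) ^ (-(4 * η)) = (N : ℝ) ^ (1 - 4 * η) := by
                rw [show (1 : ℝ) - 4 * η = 1 + -(4 * η) by ring, Real.rpow_add hN0, Real.rpow_one]
              have : 0 ≤ (N : ℝ) ^ (1 - 5 * η) := by positivity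
              nlinarith
          _ ≤ s.card * M ^ (-(4 * η)) := by
              apply mul_le_mul hsge _ (by positivity) (by positivity)
              exact Real.rpow_le_rpow_of_nonpos hM0 hMN (by linarith))
    have hnB : n ∈ B := (mem_sdiff.1 hn).1
    have hnT : n ∉ T := (mem_sdiff.1 hn).2
    exact hnT (by rw [hT, mem_filter]; exact ⟨hnB, hq⟩)
  obtain ⟨M₀, hM₀⟩ := eventually_atTop.mp hev
  exact ⟨M₀, hM₀⟩

end Pool.Agent.X33.MD
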