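import Pool.Agent.X33.MD.Good

set_option autoImplicit false

/-! The mean square of the exponential sums over an interval, with the sharp power of `N`. -/

namespace Pool.Agent.X33.MD

open Finset Filter MeasureTheory
open Pool.Agent.TH668.Met
open Pool.Agent.H469R2.NK (e norm_e e_add conj_e)

lemma int_e (K : ℝ) (hK : 0 ≤ K) (ξ : ℝ) (hξ : ξ ≠ 0) :
    ‖∫ x, e (ξ * x) ∂(volume.restrict (Set.Ioc (-K) K))‖ ≤ |ξ|⁻¹ := by
  have hξ0 : 0 < |ξ| := abs_pos.2 hξ
  set c : ℂ := 2 * Real.pi * ξ * Complex.I with hc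
  have hcn : ‖c‖ = 2 * Real.pi * |ξ| := by
    rw [hc, norm_mul, norm_mul, norm_mul, Complex.norm_I, mul_one, Complex.norm_real,
      Complex.norm_real, Complex.norm_ofNat, Real.norm_eq_abs, Real.norm_eq_abs,
      abs_of_pos Real.pi_pos]
  have hcne : c ≠ 0 := by
    rw [← norm_pos_iff, hcn]
    have := Real.pi_pos
    positivity
  rw [← intervalIntegral.integral_of_le (by linarith)]
  have e1 : ∀ x : ℝ, e (ξ * x) = Complex.exp (c * x) := by
    intro x
    rw [e_eq, hc]
    congr 1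
    ring
  simp_rw [e1]
  rw [integral_exp_mul_complex hcne, norm_div, hcn]
  have h2 : ∀ y : ℝ, ‖Complex.exp (c * y)‖ = 1 := by
    intro y
    rw [← e1, norm_e]
  have h3 : ‖Complex.exp (c * (K : ℝ)) - Complex.exp (c * ((-K : ℝ) : ℂ))‖ ≤ 2 := by
    refine (norm_sub_le _ _).trans ?_
    rw [h2, h2]
    norm_num
  rw [div_le_iff₀ (by have := Real.pi_pos; positivity)]
  refine h3.trans ?_
  have h4 : |ξ|⁻¹ * (2 * Real.pi * |ξ|) = 2 * Real.pi := by field_simp
  rw [h4]
  have := Real.pi_gt_three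
  linarith

lemma sum_inv_le (N : ℕ) : ∑ k ∈ Finset.Icc 1 N, ((k : ℝ))⁻¹ ≤ 1 + Real.log N := by
  have h := harmonic_le_one_add_log N
  rw [harmonic_eq_sum_Icc] at h
  push_cast at h
  exact h

/-- the sum of the inverse distances to the other indices of a block -/
lemma sum_dist (N n : ℕ) (hn : n ∈ Finset.Ioc N (2 * N)) :
    ∑ m ∈ (Finset.Ioc N (2 * N)).erase n, |(m : ℝ) - n|⁻¹ ≤ 2 * (1 + Real.log N) := by
  rw [Finset.mem_Ioc] at hn
  have hsplit : (Finset.Ioc N (2 * N)).erase n =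
      ((Finset.Ioc N (2 * N)).filter (fun m => m < n)) ∪
        ((Finset.Ioc N (2 * N)).filter (fun m => n < m)) := by
    ext m
    simp only [mem_erase, mem_union, mem_filter, Finset.mem_Ioc]
    omega
  rw [hsplit, sum_union]
  · have h1 : ∑ m ∈ (Finset.Ioc N (2 * N)).filter (fun m => m < n), |(m : ℝ) - n|⁻¹ ≤
        ∑ k ∈ Finset.Icc 1 N, ((k : ℝ))⁻¹ := by
      have hinj : Set.InjOn (fun m => n - m) ((Finset.Ioc N (2 * N)).filter (fun m => m < n) :
          Finset ℕ) := by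
        intro x hx y hy h
        simp only [coe_filter, Finset.mem_Ioc, Set.mem_ofPred_eq] at hx hy h
        omega
      calc ∑ m ∈ (Finset.Ioc N (2 * N)).filter (fun m => m < n), |(m : ℝ) - n|⁻¹ =
          ∑ m ∈ (Finset.Ioc N (2 * N)).filter (fun m => m < n), (((n - m : ℕ)) : ℝ)⁻¹ := by
            refine sum_congr rfl fun m hm => ?_
            rw [mem_filter] at hm
            rw [Nat.cast_sub hm.2.le, abs_sub_comm, abs_of_nonneg]
            have : (m : ℝ) ≤ n := by exact_mod_cast hm.2.le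
            linarith
        _ = ∑ k ∈ ((Finset.Ioc N (2 * N)).filter (fun m => m < n)).image (fun m => n - m),
              ((k : ℝ))⁻¹ := by rw [sum_image hinj]
        _ ≤ _ := by
            apply sum_le_sum_of_subset_of_nonneg
            · intro k hk
              rw [mem_image] at hk
              obtain ⟨m, hm, rfl⟩ := hk
              rw [mem_filter, Finset.mem_Ioc] at hm
              rw [Finset.mem_Icc]
              omega
            · intro k _ _
              positivity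
    have h2 : ∑ m ∈ (Finset.Ioc N (2 * N)).filter (fun m => n < m), |(m : ℝ) - n|⁻¹ ≤
        ∑ k ∈ Finset.Icc 1 N, ((k : ℝ))⁻¹ := by
      have hinj : Set.InjOn (fun m => m - n) ((Finset.Ioc N (2 * N)).filter (fun m => n < m) :
          Finset ℕ) := by
        intro x hx y hy h
        simp only [coe_filter, Finset.mem_Ioc, Set.mem_ofPred_eq] at hx hy h
        omega
      calc ∑ m ∈ (Finset.Ioc N (2 * N)).filter (fun m => n < m), |(m : ℝ) - n|⁻¹ =
          ∑ m ∈ (Finset.Ioc N (2 * N)).filter (fun m => n < m), (((m - n : ℕ)) : ℝ)⁻¹ := by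
            refine sum_congr rfl fun m hm => ?_
            rw [mem_filter] at hm
            rw [Nat.cast_sub hm.2.le, abs_of_nonneg]
            have : (n : ℝ) ≤ m := by exact_mod_cast hm.2.le
            linarith
        _ = ∑ k ∈ ((Finset.Ioc N (2 * N)).filter (fun m => n < m)).image (fun m => m - n),
              ((k : ℝ))⁻¹ := by rw [sum_image hinj]
        _ ≤ _ := by
            apply sum_le_sum_of_subset_of_nonneg
            · intro k hk
              rw [mem_image] at hk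
              obtain ⟨m, hm, rfl⟩ := hk
              rw [mem_filter, Finset.mem_Ioc] at hm
              rw [Finset.mem_Icc]
              omega
            · intro k _ _
              positivity
    have h3 := sum_inv_le N
    linarith
  · rw [disjoint_left]
    intro m hm hm'
    rw [mem_filter] at hm hm'
    omega

/-- the mean square over `(-K, K]`, for all large `N` -/
theorem block_sharp (K : ℝ) (hK : 0 ≤ K) (ρ η : ℝ) (hρ0 : 0 ≤ ρ) (hρ1 : ρ ≤ 1) (hη : 0 < η) (a b : ℕ → ℝ)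
    (ha : ∀ᶠ n : ℕ in atTop, (n : ℝ) ^ (ρ - 1) ≤ a (n + 1) - a n) :
    ∀ᶠ N : ℕ in atTop, ∀ θ : ℝ, (N : ℝ) ^ (-η) ≤ θ →
      ∫ α, ‖∑ n ∈ Finset.Ioc N (2 * N), e (θ * (α * a n + b n))‖ ^ 2
        ∂(volume.restrict (Set.Ioc (-K) K)) ≤ (2 * K + 1) * (N : ℝ) ^ (2 - ρ + 2 * η) := by
  obtain ⟨n₀, hn₀⟩ := eventually_atTop.mp ha
  have hlim : Tendsto (fun N : ℕ => (N : ℝ) ^ (η / 2)) atTop atTop :=
    (tendsto_rpow_atTop (by linarith)).comp tendsto_natCast_atTop_atTop
  have hlog : ∀ᶠ N : ℕ in atTop, 1 + Real.log N ≤ (N : ℝ) ^ (η / 2) := by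
    have h1 := isLittleO_log_rpow_atTop (show 0 < η / 4 by linarith)
    have h2 : ∀ᶠ x : ℝ in atTop, Real.log x ≤ x ^ (η / 4) := by
      filter_upwards [h1.bound one_pos, eventually_ge_atTop 1] with x hx hx1
      rw [one_mul, Real.norm_of_nonneg (Real.log_nonneg hx1),
        Real.norm_of_nonneg (by positivity)] at hx
      exact hx
    have h3 : ∀ᶠ x : ℝ in atTop, 1 + Real.log x ≤ x ^ (η / 2) := by
      filter_upwards [h2, (tendsto_rpow_atTop (show 0 < η / 4 by linarith)).eventually_ge_atTop 2,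
        eventually_ge_atTop 1] with x hx hx2 hx1
      have h4 : x ^ (η / 2) = x ^ (η / 4) * x ^ (η / 4) := by
        rw [← Real.rpow_add (by linarith)]
        ring_nf
      rw [h4]
      nlinarith
    exact tendsto_natCast_atTop_atTop.eventually h3
  filter_upwards [hlim.eventually_ge_atTop 4, hlog, eventually_ge_atTop n₀, eventually_ge_atTop 1]
    with N hN4 hNlog hNn hN1
  intro θ hθ
  have hNr : (1 : ℝ) ≤ N := by exact_mod_cast hN1
  have hN0 : (0 : ℝ) < N := by linarith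
  have hθ0 : 0 < θ := lt_of_lt_of_le (by positivity) hθ
  set μ : Measure ℝ := volume.restrict (Set.Ioc (-K) K) with hμ
  have hμ1 : μ.real Set.univ = 2 * K := by
    rw [hμ, Measure.real, Measure.restrict_apply_univ, Real.volume_Ioc, ENNReal.toReal_ofReal] <;>
      linarith
  have hcard : ((Finset.Ioc N (2 * N)).card : ℝ) = N := by
    rw [Nat.card_Ioc]
    congr 1
    omega
  -- separation
  have hsep : ∀ n ∈ Finset.Ioc N (2 * N), ∀ m ∈ Finset.Ioc N (2 * N),
      |(m : ℝ) - n| * (2 * N : ℝ) ^ (ρ - 1) ≤ |a n - a m| := by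
    have key : ∀ n m : ℕ, N ≤ n → n ≤ m → m ≤ 2 * N →
        ((m : ℝ) - n) * (2 * N : ℝ) ^ (ρ - 1) ≤ a m - a n := by
      intro n m h1 h2 h3
      obtain ⟨k, rfl⟩ := Nat.exists_eq_add_of_le h2
      have h4 := sep a ρ hρ1 n₀ N hN1 hNn hn₀ n k h1 h3
      push_cast
      rw [add_sub_cancel_left]
      exact h4
    intro n hn m hm
    rw [Finset.mem_Ioc] at hn hm
    rcases le_total n m with h | h
    · have h5 := key n m hn.1.le h hm.2
      have h6 : (n : ℝ) ≤ m := by exact_mod_cast h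
      rw [abs_of_nonneg (by linarith : (0 : ℝ) ≤ (m : ℝ) - n), abs_sub_comm]
      exact h5.trans (le_abs_self _)
    · have h5 := key m n hm.1.le h hn.2
      have h6 : (m : ℝ) ≤ n := by exact_mod_cast h
      rw [abs_sub_comm, abs_of_nonneg (by linarith : (0 : ℝ) ≤ (n : ℝ) - m)]
      exact h5.trans (le_abs_self _)
  have hw : (2 : ℝ)⁻¹ * (N : ℝ) ^ (ρ - 1) ≤ (2 * N : ℝ) ^ (ρ - 1) := by
    rw [Real.mul_rpow (by norm_num) hN0.le]
    apply mul_le_mul_of_nonneg_right _ (by positivity)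
    rw [← Real.rpow_neg_one]
    exact Real.rpow_le_rpow_of_exponent_le (by norm_num) (by linarith)
  set D : ℝ := (2 * N : ℝ) ^ (ρ - 1) with hD
  have hD0 : 0 < D := by positivity
  have hrow : ∀ n ∈ Finset.Ioc N (2 * N), ∑ m ∈ Finset.Ioc N (2 * N),
      ‖∫ α, e ((θ * (a n - a m)) * α) ∂μ‖ ≤ 2 * K + (θ * D)⁻¹ * (2 * (1 + Real.log N)) := by
    intro n hn
    rw [← add_sum_erase _ _ hn]
    apply add_le_add
    · refine (norm_integral_le_integral_norm _).trans ?_
      simp only [norm_e]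
      rw [integral_const, smul_eq_mul, mul_one, hμ1]
    · calc ∑ m ∈ (Finset.Ioc N (2 * N)).erase n, ‖∫ α, e ((θ * (a n - a m)) * α) ∂μ‖ ≤
          ∑ m ∈ (Finset.Ioc N (2 * N)).erase n, (θ * D)⁻¹ * |(m : ℝ) - n|⁻¹ := by
            refine sum_le_sum fun m hm => ?_
            rw [mem_erase] at hm
            have h1 : 0 < |(m : ℝ) - n| := by
              rw [abs_pos, sub_ne_zero]
              exact_mod_cast hm.1
            have h2 := hsep n hn m hm.2
            have h3 : 0 < |a n - a m| := lt_of_lt_of_le (by positivity) h2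
            have h4 : θ * (a n - a m) ≠ 0 := by
              have : a n - a m ≠ 0 := abs_pos.1 h3
              positivity
            refine (int_e K hK _ h4).trans ?_
            rw [← mul_inv, abs_mul, abs_of_pos hθ0]
            apply inv_anti₀ (by positivity)
            calc θ * D * |(m : ℝ) - n| = θ * (|(m : ℝ) - n| * D) := by ring
              _ ≤ θ * |a n - a m| := by gcongr
        _ = (θ * D)⁻¹ * ∑ m ∈ (Finset.Ioc N (2 * N)).erase n, |(m : ℝ) - n|⁻¹ := by
            rw [mul_sum]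
        _ ≤ _ := by
            gcongr
            exact sum_dist N n hn
  have hlogn : 0 ≤ 1 + Real.log N := by
    have := Real.log_nonneg hNr
    linarith
  -- the size of the off diagonal part
  have hoff : (θ * D)⁻¹ * (2 * (1 + Real.log N)) ≤ (N : ℝ) ^ (1 - ρ + 2 * η) := by
    have h : (N : ℝ) ^ (ρ - 1) * (N : ℝ) ^ (-(η / 2)) ≤ D / 2 := by
      have h2 : (N : ℝ) ^ (-(η / 2)) ≤ 4⁻¹ := by
        rw [Real.rpow_neg hN0.le]
        exact inv_anti₀ (by norm_num) hN4
      have h3 : 0 ≤ (N : ℝ) ^ (ρ - 1) := by positivity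
      nlinarith
    have h2 : (N : ℝ) ^ (-η) * ((N : ℝ) ^ (ρ - 1) * (N : ℝ) ^ (-(η / 2))) ≤ θ * (D / 2) := by
      gcongr
    have h3 : (N : ℝ) ^ (-η) * ((N : ℝ) ^ (ρ - 1) * (N : ℝ) ^ (-(η / 2))) =
        (N : ℝ) ^ (ρ - 1 - 3 * η / 2) := by
      rw [← Real.rpow_add hN0, ← Real.rpow_add hN0]
      ring_nf
    rw [h3] at h2
    calc (θ * D)⁻¹ * (2 * (1 + Real.log N)) = (θ * (D / 2))⁻¹ * (1 + Real.log N) := by
          field_simp
      _ ≤ ((N : ℝ) ^ (ρ - 1 - 3 * η / 2))⁻¹ * (N : ℝ) ^ (η / 2) := by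
          gcongr
      _ = (N : ℝ) ^ (1 - ρ + 2 * η) := by
          rw [← Real.rpow_neg hN0.le, ← Real.rpow_add hN0]
          ring_nf
  calc ∫ α, ‖∑ n ∈ Finset.Ioc N (2 * N), e (θ * (α * a n + b n))‖ ^ 2 ∂μ ≤
      ∑ n ∈ Finset.Ioc N (2 * N), ∑ m ∈ Finset.Ioc N (2 * N),
        ‖∫ α, e ((θ * (a n - a m)) * α) ∂μ‖ := mean_sq μ _ a b θ
    _ ≤ ∑ n ∈ Finset.Ioc N (2 * N), (2 * K + (N : ℝ) ^ (1 - ρ + 2 * η)) :=
        sum_le_sum fun n hn => (hrow n hn).trans (by gcongr)
    _ = N * (2 * K + (N : ℝ) ^ (1 - ρ + 2 * η)) := by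
        rw [sum_const, nsmul_eq_mul, hcard]
    _ ≤ N * (2 * K * (N : ℝ) ^ (1 - ρ + 2 * η) + (N : ℝ) ^ (1 - ρ + 2 * η)) := by
        have : (1 : ℝ) ≤ (N : ℝ) ^ (1 - ρ + 2 * η) := Real.one_le_rpow hNr (by linarith)
        have h7 : 2 * K * 1 ≤ 2 * K * (N : ℝ) ^ (1 - ρ + 2 * η) := by gcongr
        have h8 : 2 * K ≤ 2 * K * (N : ℝ) ^ (1 - ρ + 2 * η) := by linarith
        apply mul_le_mul_of_nonneg_left _ hN0.le
        linarith
    _ = (2 * K + 1) * ((N : ℝ) ^ (1 : ℝ) * (N : ℝ) ^ (1 - ρ + 2 * η)) := by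
        rw [Real.rpow_one]
        ring
    _ = _ := by
        rw [← Real.rpow_add hN0]
        ring_nf

end Pool.Agent.X33.MD
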